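import Mathlib

/-!
# Entire functions with prescribed values at the natural numbers
-/

set_option autoImplicit false

open Set Topology Filter Complex Finset

namespace Pool.Agent.X170.Tame

theorem step (k : ℕ) (hk : 1 ≤ k) (b : ℂ) : ∃ T : ℂ → ℂ, Differentiable ℂ T ∧
    (∀ j : ℕ, j < k → T j = 0) ∧ T k = b ∧ ∀ z : ℂ, ‖z‖ ≤ k / 2 → ‖T z‖ ≤ (1 / 2) ^ k := by
  set P : ℂ → ℂ := fun z => ∏ j ∈ range k, (z - j) with hP
  have hPd : Differentiable ℂ P := by
    rw [hP]
    exact Differentiable.fun_finsetProd fun j _ => differentiable_id.sub_const _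
  have hk0 : (k : ℂ) ≠ 0 := by exact_mod_cast (by omega : k ≠ 0)
  have hPk : P k ≠ 0 := by
    rw [hP]
    refine prod_ne_zero_iff.2 fun j hj => sub_ne_zero.2 ?_
    have := mem_range.1 hj
    exact_mod_cast this.ne'
  obtain ⟨C, hC⟩ := (isCompact_closedBall (0 : ℂ) (k / 2)).exists_bound_of_continuousOn
    (f := fun z => b * P z / P k) ((continuous_const.mul hPd.continuous).div_const _).continuousOn
  obtain ⟨N, hN⟩ : ∃ N : ℕ, (|C| + 1) * (1 / 2 : ℝ) ^ N ≤ (1 / 2) ^ k := by
    obtain ⟨N, hN⟩ := exists_pow_lt_of_lt_one (show (0 : ℝ) < (1 / 2) ^ k / (|C| + 1) by positivity)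
      (show (1 / 2 : ℝ) < 1 by norm_num)
    refine ⟨N, ?_⟩
    rw [lt_div_iff₀ (by positivity)] at hN
    linarith
  refine ⟨fun z => b * P z / P k * (z / k) ^ N, ?_, ?_, ?_, ?_⟩
  · exact (((differentiable_const b).mul hPd).div_const _).mul
      ((differentiable_id.div_const _).pow _)
  · intro j hj
    have : P j = 0 := by
      rw [hP]
      exact prod_eq_zero (mem_range.2 hj) (sub_self _)
    simp only [this]
    simp
  · simp only [div_self hk0, one_pow, mul_one]
    exact mul_div_cancel_right₀ b hPk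
  · intro z hz
    rw [norm_mul, norm_pow, norm_div z, Complex.norm_natCast]
    have h1 : ‖b * P z / P k‖ ≤ |C| + 1 := by
      have := hC z (by rwa [mem_closedBall_zero_iff])
      have h2 := le_abs_self C
      linarith
    have hk' : (0 : ℝ) < k := by exact_mod_cast (by omega : 0 < k)
    have h2 : ‖z‖ / k ≤ 1 / 2 := by
      rw [div_le_iff₀ hk']
      linarith
    have h3 : (‖z‖ / k) ^ N ≤ (1 / 2) ^ N := pow_le_pow_left₀ (by positivity) h2 N
    calc ‖b * P z / P k‖ * (‖z‖ / k) ^ N ≤ (|C| + 1) * (1 / 2) ^ N := by gcongr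
      _ ≤ _ := hN

/-- the successive approximations -/
noncomputable def S (a : ℕ → ℂ) : ℕ → ℂ → ℂ
  | 0 => fun _ => a 0
  | k + 1 => fun z => S a k z +
      (step (k + 1) (by omega) (a (k + 1) - S a k ((k + 1 : ℕ) : ℂ))).choose z

theorem S_spec (a : ℕ → ℂ) (k : ℕ) : Differentiable ℂ (S a k) ∧ (∀ n : ℕ, n ≤ k → S a k n = a n) := by
  induction k with
  | zero =>
    refine ⟨differentiable_const _, fun n hn => ?_⟩
    obtain rfl : n = 0 := by omega
    rfl
  | succ k ih =>
    obtain ⟨h1, h2, h3, h4⟩ :=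
      (step (k + 1) (by omega) (a (k + 1) - S a k ((k + 1 : ℕ) : ℂ))).choose_spec
    refine ⟨ih.1.add h1, fun n hn => ?_⟩
    rcases hn.lt_or_eq with h | rfl
    · show S a k n + _ = a n
      rw [ih.2 n (by omega), h2 n h, add_zero]
    · show S a k ((k + 1 : ℕ) : ℂ) + _ = a (k + 1)
      rw [h3]
      ring

theorem S_diff (a : ℕ → ℂ) (k : ℕ) (z : ℂ) (hz : ‖z‖ ≤ (k + 1 : ℕ) / 2) :
    ‖S a (k + 1) z - S a k z‖ ≤ (1 / 2) ^ (k + 1) := by
  obtain ⟨h1, h2, h3, h4⟩ :=
    (step (k + 1) (by omega) (a (k + 1) - S a k ((k + 1 : ℕ) : ℂ))).choose_spec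
  have e : S a (k + 1) z - S a k z =
      (step (k + 1) (by omega) (a (k + 1) - S a k ((k + 1 : ℕ) : ℂ))).choose z := by
    show S a k z + _ - S a k z = _
    ring
  rw [e]
  exact h4 z hz

/-- For every sequence `a` there is an entire function `h` with `h(n) = a n` for all `n ∈ ℕ`. -/
theorem exists_entire_interp (a : ℕ → ℂ) :
    ∃ h : ℂ → ℂ, Differentiable ℂ h ∧ ∀ n : ℕ, h n = a n := by
  set f : ℕ → ℂ → ℂ := fun k z => S a (k + 1) z - S a k z with hf
  have hu : Summable fun k : ℕ => (1 / 2 : ℝ) ^ (k + 1) := by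
    simp only [pow_succ]
    exact (summable_geometric_of_lt_one (by norm_num) (by norm_num)).mul_right _
  have hsum : ∀ n : ℕ, ∀ z, ∑ k ∈ range n, f k z = S a n z - S a 0 z := by
    intro n z
    exact Finset.sum_range_sub (fun k => S a k z) n
  have hunif : ∀ R : ℝ, TendstoUniformlyOn (fun n z => ∑ k ∈ range n, f k z)
      (fun z => ∑' k, f k z) atTop (Metric.ball 0 R) := by
    intro R
    refine tendstoUniformlyOn_tsum_nat_eventually hu ?_
    obtain ⟨K, hK⟩ := exists_nat_gt (2 * R)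
    filter_upwards [eventually_ge_atTop K] with k hk z hz
    refine S_diff a k z ?_
    rw [mem_ball_zero_iff] at hz
    have : (K : ℝ) ≤ k := by exact_mod_cast hk
    push_cast
    linarith
  have hd : Differentiable ℂ (fun z => ∑' k, f k z) := by
    intro z
    have h1 : DifferentiableOn ℂ (fun z => ∑' k, f k z) (Metric.ball 0 (‖z‖ + 1)) := by
      refine (hunif _).tendstoLocallyUniformlyOn.differentiableOn
        (Eventually.of_forall fun n => ?_) Metric.isOpen_ball
      have h2 : (fun z => ∑ k ∈ range n, f k z) = fun z => S a n z - S a 0 z := by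
        funext z
        exact hsum n z
      rw [h2]
      exact ((S_spec a n).1.sub (S_spec a 0).1).differentiableOn
    exact (h1 z (by simp)).differentiableAt (Metric.isOpen_ball.mem_nhds (by simp))
  refine ⟨fun z => a 0 + ∑' k, f k z, hd.const_add _, fun n => ?_⟩
  have h1 : Tendsto (fun m => ∑ k ∈ range m, f k n) atTop (𝓝 (∑' k, f k n)) :=
    (hunif (n + 1)).tendsto_at (by simp)
  have h2 : Tendsto (fun m => ∑ k ∈ range m, f k (n : ℂ)) atTop (𝓝 (a n - a 0)) := by
    refine tendsto_const_nhds.congr' ?_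
    filter_upwards [eventually_ge_atTop n] with m hm
    rw [hsum, (S_spec a m).2 n hm]
    rfl
  have h3 := tendsto_nhds_unique h1 h2
  show a 0 + ∑' k, f k (n : ℂ) = a n
  rw [h3]
  ring

end Pool.Agent.X170.Tame
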